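import Pool.Agent.Run7.h395.LocL

/-!
# The region lit by at most two diffuse reflections has complexity `O(n ^ 2)`
-/

open Run7.h395

theorem Pool.Agent.Results.MP_ee0a5d_co.QuadraticTwo.result
    (n : ℕ) (S : SimplePolygon n) (p : ℂ) (_hp : p ∈ S.region) :
    (corners (frontier (S.V p 2))).encard + (sides (frontier (S.V p 2))).encard ≤
      ((25000 * n ^ 2 : ℕ) : ℕ∞) := by
  rw [S.V_eq_lev]
  exact S.complexity_two p
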