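import Pool.Agent.Run7.h395.LocS

/-!
# Complexity of the region lit by at most `k` diffuse reflections

For every number `k` of reflections the boundary of the lit region has `O(n ^ 2 r)` vertices and
edges, where `r` is the number of vertices with interior angle at least `π`. The constant does not
depend on `k`.
-/

open Run7.h395

theorem Pool.Agent.Results.MP_ee0a5d_co.ReflexRegion.result
    (n : ℕ) (S : SimplePolygon n) (p : ℂ) (k : ℕ) :
    (corners (frontier (S.V p k))).encard + (sides (frontier (S.V p k))).encard ≤
      ((120000 * n ^ 2 * {m | S.Wide m}.ncard + 2 * n : ℕ) : ℕ∞) := by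
  rw [S.V_eq_lev]
  exact S.complexityM p k
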