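import Pool.Agent.Run7.h395.LocS

/-!
# A line segment inside the polygon crosses the boundary of the lit region `O(n)` times

For every simple polygon `S` with `n` edges, every light source `p` in it and every `k`, a line
segment inside the polygon cannot alternate more than `240 n + 1` times between the region `V p k`
lit with at most `k` diffuse reflections and its complement. The bound does not depend on `k`.
-/

open Run7.h395

theorem Pool.Agent.Results.MP_ee0a5d_co.Stabbing.result
    (n : ℕ) (S : SimplePolygon n) (p : ℂ) (k : ℕ)
    (a b : ℂ) (hab : segment ℝ a b ⊆ S.region)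
    (m : ℕ) (t : ℕ → ℝ) (h0 : 0 ≤ t 0) (h1 : t m ≤ 1) (hmono : ∀ i < m, t i < t (i + 1))
    (halt : ∀ i < m, (a + t i • (b - a) ∈ S.V p k ↔ a + t (i + 1) • (b - a) ∉ S.V p k)) :
    m ≤ 240 * n + 1 := by
  refine S.stabbingM p k a b hab m t h0 h1 hmono ?_
  intro i hi
  rw [← S.V_eq_lev]
  exact halt i hi
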