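import Pool.Agent.Run7.h395.LocS

/-!
# The boundary of the region lit by at most `k` diffuse reflections lies on few segments

Apart from the boundary of the polygon, the boundary of `V p k` is covered by at most `82 n r`
segments that are contained in the polygon and issue from vertices with interior angle at least
`π`, where `r` is the number of these vertices. The bound does not depend on `k`.
-/

open Run7.h395

theorem Pool.Agent.Results.MP_ee0a5d_co.WindowCount.result
    (n : ℕ) (S : SimplePolygon n) (p : ℂ) (k : ℕ) :
    ∃ W : Finset (ℂ × ℂ), W.card ≤ 82 * n * {m | S.Wide m}.ncard ∧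
      (∀ w ∈ W, (∃ m, S.Wide m ∧ w.1 = S.v m) ∧ segment ℝ w.1 w.2 ⊆ S.region) ∧
      frontier (S.V p k) ⊆ frontier S.region ∪ ⋃ w ∈ W, segment ℝ w.1 w.2 := by
  rw [S.V_eq_lev]
  exact S.window_segmentsM p k
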